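import Pool.Agent.L7h66.TS.Stm

/-!
# Project TS: S_ENC, the hard lists of edges
-/

set_option autoImplicit false

namespace Pool.Agent.L7h35.TS

open Finset
open Pool.Agent.L7h66.TS

/-- first vertex of the edge number `l` -/
def f1 (n l x y : ℕ) : ℕ :=
  if l < n then x else if l < 2 * n then 2 * n + y else if l < 3 * n then x else 5 * n

/-- second vertex of the edge number `l` -/
def f2 (n l _x y : ℕ) : ℕ :=
  if l < n then 4 * n + l else if l < 2 * n then 4 * n + (l - n) else if l < 3 * n then 2 * n + y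
  else 5 * n + 1 + (l - 3 * n)

theorem s_ENC : S_ENC := by
  classical
  intro n m V hn hm hm' hV
  have hb1 : ∀ (l : Fin m) (d : Fin (2 * n) × Fin (2 * n)), f1 n l d.1 d.2 < V := by
    intro l d
    have := l.2; have := d.1.2; have := d.2.2
    simp only [f1]
    split_ifs <;> omega
  have hb2 : ∀ (l : Fin m) (d : Fin (2 * n) × Fin (2 * n)), f2 n l d.1 d.2 < V := by
    intro l d
    have := l.2; have := d.1.2; have := d.2.2
    simp only [f2]
    split_ifs <;> omega
  let it : Fin m → Fin n ⊕ Fin n := fun l =>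
    if h : (l : ℕ) < n then Sum.inl ⟨l, h⟩
    else if h : (l : ℕ) < 2 * n then Sum.inl ⟨l - n, by omega⟩
    else if h : (l : ℕ) < 3 * n then Sum.inr ⟨l - 2 * n, by omega⟩
    else Sum.inl ⟨0, by omega⟩
  let ent : Fin m → Fin (2 * n) × Fin (2 * n) → Fin V × Fin V := fun l d =>
    (⟨f1 n l d.1 d.2, hb1 l d⟩, ⟨f2 n l d.1 d.2, hb2 l d⟩)
  refine ⟨it, ent, ?_⟩
  intro z
  -- the places
  let p1 : Fin n → Fin m := fun i => ⟨i, by omega⟩
  let p2 : Fin n → Fin m := fun i => ⟨n + i, by omega⟩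
  let p3 : Fin n → Fin m := fun i => ⟨2 * n + i, by omega⟩
  -- the edges
  let E : Fin m → Fin V × Fin V := fun l => ent l (z (it l))
  have hE1 : ∀ i, ((E (p1 i)).1 : ℕ) = (z (Sum.inl i)).1 ∧ ((E (p1 i)).2 : ℕ) = 4 * n + i := by
    intro i
    have hi : it (p1 i) = Sum.inl i := by
      simp only [it, p1]
      rw [dif_pos i.2]
    have h0 : ((p1 i : Fin m) : ℕ) = i := rfl
    constructor
    · simp only [E, ent, hi, h0, f1, if_pos i.2]
    · simp only [E, ent, hi, h0, f2, if_pos i.2]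
  have hE2 : ∀ i, ((E (p2 i)).1 : ℕ) = 2 * n + (z (Sum.inl i)).2 ∧
      ((E (p2 i)).2 : ℕ) = 4 * n + i := by
    intro i
    have h0 : ((p2 i : Fin m) : ℕ) = n + i := rfl
    have hlt := i.2
    have hi : it (p2 i) = Sum.inl i := by
      simp only [it, h0]
      rw [dif_neg (by omega), dif_pos (by omega)]
      congr 1
      apply Fin.ext
      simp
    constructor
    · simp only [E, ent, hi, h0, f1]
      rw [if_neg (by omega), if_pos (by omega)]
    · simp only [E, ent, hi, h0, f2]
      rw [if_neg (by omega), if_pos (by omega)]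
      omega
  have hE3 : ∀ i, ((E (p3 i)).1 : ℕ) = (z (Sum.inr i)).1 ∧
      ((E (p3 i)).2 : ℕ) = 2 * n + (z (Sum.inr i)).2 := by
    intro i
    have h0 : ((p3 i : Fin m) : ℕ) = 2 * n + i := rfl
    have hlt := i.2
    have hi : it (p3 i) = Sum.inr i := by
      simp only [it, h0]
      rw [dif_neg (by omega), dif_neg (by omega), dif_pos (by omega)]
      congr 1
      apply Fin.ext
      simp
    constructor
    · simp only [E, ent, hi, h0, f1]
      rw [if_neg (by omega), if_neg (by omega), if_pos (by omega)]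
    · simp only [E, ent, hi, h0, f2]
      rw [if_neg (by omega), if_neg (by omega), if_pos (by omega)]
  -- every place is of one of the four types
  have hcase : ∀ l : Fin m, (∃ i, l = p1 i) ∨ (∃ i, l = p2 i) ∨ (∃ i, l = p3 i) ∨
      (3 * n ≤ (l : ℕ) ∧ ((E l).1 : ℕ) = 5 * n ∧ ((E l).2 : ℕ) = 5 * n + 1 + (l - 3 * n)) := by
    intro l
    by_cases h1 : (l : ℕ) < n
    · exact Or.inl ⟨⟨l, h1⟩, rfl⟩
    by_cases h2 : (l : ℕ) < 2 * n
    · refine Or.inr (Or.inl ⟨⟨l - n, by omega⟩, Fin.ext ?_⟩)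
      simp only [p2]; omega
    by_cases h3 : (l : ℕ) < 3 * n
    · refine Or.inr (Or.inr (Or.inl ⟨⟨l - 2 * n, by omega⟩, Fin.ext ?_⟩))
      simp only [p3]; omega
    · refine Or.inr (Or.inr (Or.inr ⟨by omega, ?_, ?_⟩))
      · simp only [E, ent, f1]
        rw [if_neg h1, if_neg h2, if_neg h3]
      · simp only [E, ent, f2]
        rw [if_neg h1, if_neg h2, if_neg h3]
  have hx : ∀ s, ((z s).1 : ℕ) < 2 * n := fun s => (z s).1.2
  have hy : ∀ s, ((z s).2 : ℕ) < 2 * n := fun s => (z s).2.2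
  constructor
  · constructor
    · rintro ⟨-, hinj⟩ i i' h
      simp only at h
      have h1 : E (p3 i) = E (p3 i') := by
        apply Prod.ext
        · apply Fin.ext; rw [(hE3 i).1, (hE3 i').1, h]
        · apply Fin.ext; rw [(hE3 i).2, (hE3 i').2, h]
      have h2 := hinj h1
      have h3 : 2 * n + (i : ℕ) = 2 * n + (i' : ℕ) := congrArg Fin.val h2
      exact Fin.ext (by omega)
    · intro hinj
      refine ⟨?_, ?_⟩
      · intro l
        show (E l).1 < (E l).2
        rw [Fin.lt_def]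
        rcases hcase l with ⟨i, rfl⟩ | ⟨i, rfl⟩ | ⟨i, rfl⟩ | ⟨h0, h1, h2⟩
        · rw [(hE1 i).1, (hE1 i).2]; have := hx (Sum.inl i); omega
        · rw [(hE2 i).1, (hE2 i).2]; have := hy (Sum.inl i); omega
        · rw [(hE3 i).1, (hE3 i).2]; have := hx (Sum.inr i); omega
        · rw [h1, h2]; omega
      · intro l l' h
        have h1 : ((E l).1 : ℕ) = (E l').1 := congrArg (fun e : Fin V × Fin V => (e.1 : ℕ)) h
        have h2 : ((E l).2 : ℕ) = (E l').2 := congrArg (fun e : Fin V × Fin V => (e.2 : ℕ)) h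
        have b1 := hx; have b2 := hy
        rcases hcase l with ⟨i, rfl⟩ | ⟨i, rfl⟩ | ⟨i, rfl⟩ | ⟨h0, h3, h4⟩ <;>
        rcases hcase l' with ⟨j, rfl⟩ | ⟨j, rfl⟩ | ⟨j, rfl⟩ | ⟨h0', h3', h4'⟩
        · rw [(hE1 i).2, (hE1 j).2] at h2
          rw [Fin.ext (show (i : ℕ) = j by omega)]
        · rw [(hE1 i).1, (hE2 j).1] at h1
          have := hx (Sum.inl i); omega
        · rw [(hE1 i).2, (hE3 j).2] at h2
          have := hy (Sum.inr j); omega
        · rw [(hE1 i).1, h3'] at h1
          have := hx (Sum.inl i); omega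
        · rw [(hE2 i).1, (hE1 j).1] at h1
          have := hx (Sum.inl j); omega
        · rw [(hE2 i).2, (hE2 j).2] at h2
          rw [Fin.ext (show (i : ℕ) = j by omega)]
        · rw [(hE2 i).2, (hE3 j).2] at h2
          have := hy (Sum.inr j); omega
        · rw [(hE2 i).1, h3'] at h1
          have := hy (Sum.inl i); omega
        · rw [(hE3 i).2, (hE1 j).2] at h2
          have := hy (Sum.inr i); omega
        · rw [(hE3 i).2, (hE2 j).2] at h2
          have := hy (Sum.inr i); omega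
        · rw [(hE3 i).1, (hE3 j).1] at h1
          rw [(hE3 i).2, (hE3 j).2] at h2
          have h2' : ((z (Sum.inr i)).2 : ℕ) = (z (Sum.inr j)).2 := by omega
          have hij : i = j := hinj (Prod.ext (Fin.ext h1) (Fin.ext h2'))
          rw [hij]
        · rw [(hE3 i).1, h3'] at h1
          have := hx (Sum.inr i); omega
        · rw [h3, (hE1 j).1] at h1
          have := hx (Sum.inl j); omega
        · rw [h3, (hE2 j).1] at h1
          have := hy (Sum.inl j); omega
        · rw [h3, (hE3 j).1] at h1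
          have := hx (Sum.inr j); omega
        · rw [h4, h4'] at h2
          exact Fin.ext (by omega)
  · constructor
    · rintro ⟨u, v, w, ⟨l1, e1⟩, ⟨l2, e2⟩, ⟨l3, e3⟩⟩
      change E l1 = _ at e1
      change E l2 = _ at e2
      change E l3 = _ at e3
      have a1 : ((E l1).1 : ℕ) = u := by rw [e1]
      have a2 : ((E l1).2 : ℕ) = v := by rw [e1]
      have a3 : ((E l2).1 : ℕ) = v := by rw [e2]
      have a4 : ((E l2).2 : ℕ) = w := by rw [e2]
      have a5 : ((E l3).1 : ℕ) = u := by rw [e3]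
      have a6 : ((E l3).2 : ℕ) = w := by rw [e3]
      clear e1 e2 e3
      -- the second edge is of the second type
      rcases hcase l2 with ⟨j, rfl⟩ | ⟨j, rfl⟩ | ⟨j, rfl⟩ | ⟨h0', h3', h4'⟩
      · exfalso
        rw [(hE1 j).1] at a3
        have hj := hx (Sum.inl j)
        rcases hcase l1 with ⟨i, rfl⟩ | ⟨i, rfl⟩ | ⟨i, rfl⟩ | ⟨h0, h3, h4⟩
        · rw [(hE1 i).2] at a2; omega
        · rw [(hE2 i).2] at a2; omega
        · rw [(hE3 i).2] at a2; omega
        · rw [h4] at a2; omega
      · rw [(hE2 j).1] at a3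
        rw [(hE2 j).2] at a4
        have hj := hy (Sum.inl j)
        rcases hcase l1 with ⟨i, rfl⟩ | ⟨i, rfl⟩ | ⟨i, rfl⟩ | ⟨h0, h3, h4⟩
        · rw [(hE1 i).2] at a2; omega
        · rw [(hE2 i).2] at a2; omega
        · rw [(hE3 i).1] at a1
          rw [(hE3 i).2] at a2
          have hi := hx (Sum.inr i)
          have hi' := hy (Sum.inr i)
          rcases hcase l3 with ⟨k, rfl⟩ | ⟨k, rfl⟩ | ⟨k, rfl⟩ | ⟨h0, h3, h4⟩
          · rw [(hE1 k).1] at a5
            rw [(hE1 k).2] at a6
            have hjk : j = k := Fin.ext (by omega)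
            subst hjk
            refine ⟨j, i, Prod.ext (Fin.ext ?_) (Fin.ext ?_)⟩
            · omega
            · omega
          · rw [(hE2 k).1] at a5; omega
          · rw [(hE3 k).2] at a6
            have := hy (Sum.inr k); omega
          · rw [h3] at a5; omega
        · rw [h4] at a2; omega
      · exfalso
        rw [(hE3 j).1] at a3
        have hj := hx (Sum.inr j)
        rcases hcase l1 with ⟨i, rfl⟩ | ⟨i, rfl⟩ | ⟨i, rfl⟩ | ⟨h0, h3, h4⟩
        · rw [(hE1 i).2] at a2; omega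
        · rw [(hE2 i).2] at a2; omega
        · rw [(hE3 i).2] at a2; omega
        · rw [h4] at a2; omega
      · exfalso
        rw [h3'] at a3
        rcases hcase l1 with ⟨i, rfl⟩ | ⟨i, rfl⟩ | ⟨i, rfl⟩ | ⟨h0, h3, h4⟩
        · rw [(hE1 i).2] at a2; omega
        · rw [(hE2 i).2] at a2; omega
        · rw [(hE3 i).2] at a2
          have := hy (Sum.inr i); omega
        · rw [h4] at a2; omega
    · rintro ⟨i, i', h⟩
      have c1 : ((z (Sum.inl i)).1 : ℕ) = (z (Sum.inr i')).1 := by rw [h]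
      have c2 : ((z (Sum.inl i)).2 : ℕ) = (z (Sum.inr i')).2 := by rw [h]
      refine ⟨(E (p3 i')).1, (E (p3 i')).2, (E (p1 i)).2, ⟨p3 i', rfl⟩, ⟨p2 i, ?_⟩, ⟨p1 i, ?_⟩⟩
      · change E (p2 i) = _
        apply Prod.ext
        · apply Fin.ext
          show ((E (p2 i)).1 : ℕ) = ((E (p3 i')).2 : ℕ)
          rw [(hE2 i).1, (hE3 i').2, c2]
        · apply Fin.ext
          show ((E (p2 i)).2 : ℕ) = ((E (p1 i)).2 : ℕ)
          rw [(hE2 i).2, (hE1 i).2]
      · change E (p1 i) = _
        apply Prod.ext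
        · apply Fin.ext
          show ((E (p1 i)).1 : ℕ) = ((E (p3 i')).1 : ℕ)
          rw [(hE1 i).1, (hE3 i').1, c1]
        · rfl

end Pool.Agent.L7h35.TS
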