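import Pool.Agent.L7h66.TS.Stm

/-!
# Project TS: S_GOOD, most inputs are good
-/

set_option autoImplicit false

namespace Pool.Agent.L7h35.TS

open Finset

/-- the functions which take the same value at two different places -/
theorem card_eq_places {ι D : Type} [Fintype ι] [DecidableEq ι] [Fintype D] [DecidableEq D]
    (a b : ι) (hab : a ≠ b) :
    Fintype.card D * ((univ : Finset (ι → D)).filter (fun z => z a = z b)).card ≤
      (Fintype.card D) ^ Fintype.card ι := by
  classical
  have h : ((univ : Finset D) ×ˢ ((univ : Finset (ι → D)).filter (fun z => z a = z b))).card ≤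
      (univ : Finset (ι → D)).card := by
    apply Finset.card_le_card_of_injOn (fun p => Function.update p.2 a p.1)
    · intro p _
      simp
    · rintro ⟨d, z⟩ hz ⟨d', z'⟩ hz' h
      simp only [Finset.coe_product, Set.mem_prod, Finset.mem_coe, mem_univ, mem_filter, true_and]
        at hz hz'
      simp only at h
      have h1 : d = d' := by
        have := congrFun h a
        simpa using this
      have h2 : ∀ i, i ≠ a → z i = z' i := by
        intro i hi
        have := congrFun h i
        simpa [Function.update_of_ne hi] using this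
      have h3 : z = z' := by
        funext i
        by_cases hi : i = a
        · subst hi
          rw [hz, hz', h2 b (Ne.symm hab)]
        · exact h2 i hi
      rw [h1, h3]
  rw [Finset.card_product, Finset.card_univ, Finset.card_univ, Fintype.card_fun] at h
  exact h

theorem s_GOOD : Pool.Agent.L7h66.TS.S_GOOD := by
  classical
  intro n hn
  have hcD : Fintype.card (Fin (2 * n) × Fin (2 * n)) = 4 * n ^ 2 := by
    rw [Fintype.card_prod, Fintype.card_fin]; ring
  set D := Fin (2 * n) × Fin (2 * n) with hD
  have hcI : Fintype.card (Fin n ⊕ Fin n) = 2 * n := by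
    rw [Fintype.card_sum, Fintype.card_fin]; ring
  set good := (univ : Finset (Fin n ⊕ Fin n → D)).filter (fun z =>
      Function.Injective (fun i => z (Sum.inr i)) ∧ ∀ i i', z (Sum.inl i) ≠ z (Sum.inr i')) with hg
  set bad := (univ : Finset (Fin n ⊕ Fin n → D)).filter (fun z =>
      ¬ (Function.Injective (fun i => z (Sum.inr i)) ∧ ∀ i i', z (Sum.inl i) ≠ z (Sum.inr i')))
    with hb
  have htot : good.card + bad.card = (4 * n ^ 2) ^ (2 * n) := by
    rw [hg, hb, Finset.card_filter_add_card_filter_not, Finset.card_univ, Fintype.card_fun, hcD,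
      hcI]
  let A : Fin n × Fin n → Finset (Fin n ⊕ Fin n → D) := fun p =>
    univ.filter (fun z => p.1 ≠ p.2 ∧ z (Sum.inr p.1) = z (Sum.inr p.2))
  let B : Fin n × Fin n → Finset (Fin n ⊕ Fin n → D) := fun p =>
    univ.filter (fun z => z (Sum.inl p.1) = z (Sum.inr p.2))
  have hA : ∀ p, (4 * n ^ 2) * (A p).card ≤ (4 * n ^ 2) ^ (2 * n) := by
    intro p
    by_cases hp : p.1 = p.2
    · have : A p = ∅ := by
        apply Finset.filter_eq_empty_iff.2
        intro z _ h
        exact h.1 hp
      rw [this]; simp
    · have := card_eq_places (D := D) (Sum.inr p.1 : Fin n ⊕ Fin n) (Sum.inr p.2)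
        (fun h => hp (Sum.inr_injective h))
      rw [hcD, hcI] at this
      refine le_trans (Nat.mul_le_mul_left _ (Finset.card_le_card ?_)) this
      intro z hz
      simp only [A, mem_filter, mem_univ, true_and] at hz ⊢
      exact hz.2
  have hB : ∀ p, (4 * n ^ 2) * (B p).card ≤ (4 * n ^ 2) ^ (2 * n) := by
    intro p
    have := card_eq_places (D := D) (Sum.inl p.1 : Fin n ⊕ Fin n) (Sum.inr p.2) (by simp)
    rw [hcD, hcI] at this
    exact this
  have hsub : bad ⊆ (univ : Finset (Fin n × Fin n)).biUnion A ∪
      (univ : Finset (Fin n × Fin n)).biUnion B := by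
    intro z hz
    simp only [hb, mem_filter, mem_univ, true_and, not_and_or] at hz
    rw [Finset.mem_union]
    rcases hz with hz | hz
    · left
      simp only [Function.Injective] at hz
      push Not at hz
      obtain ⟨i, i', h1, h2⟩ := hz
      simp only [A, mem_biUnion, mem_univ, mem_filter, true_and]
      exact ⟨(i, i'), h2, h1⟩
    · right
      push Not at hz
      obtain ⟨i, i', h1⟩ := hz
      simp only [B, mem_biUnion, mem_univ, mem_filter, true_and]
      exact ⟨(i, i'), h1⟩
  have hbad : bad.card ≤ ∑ p, (A p).card + ∑ p, (B p).card :=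
    le_trans (Finset.card_le_card hsub) (le_trans (Finset.card_union_le _ _)
      (Nat.add_le_add Finset.card_biUnion_le Finset.card_biUnion_le))
  have h1 : (4 * n ^ 2) * bad.card ≤ 2 * n ^ 2 * (4 * n ^ 2) ^ (2 * n) := by
    calc (4 * n ^ 2) * bad.card ≤ (4 * n ^ 2) * (∑ p, (A p).card + ∑ p, (B p).card) :=
          Nat.mul_le_mul_left _ hbad
      _ = ∑ p, (4 * n ^ 2) * (A p).card + ∑ p, (4 * n ^ 2) * (B p).card := by
          rw [mul_add, Finset.mul_sum, Finset.mul_sum]
      _ ≤ ∑ _p : Fin n × Fin n, (4 * n ^ 2) ^ (2 * n) +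
          ∑ _p : Fin n × Fin n, (4 * n ^ 2) ^ (2 * n) :=
          Nat.add_le_add (Finset.sum_le_sum fun p _ => hA p) (Finset.sum_le_sum fun p _ => hB p)
      _ = 2 * n ^ 2 * (4 * n ^ 2) ^ (2 * n) := by
          simp only [Finset.sum_const, Finset.card_univ, Fintype.card_prod, Fintype.card_fin,
            smul_eq_mul]
          ring
  have h2 : 2 * bad.card ≤ (4 * n ^ 2) ^ (2 * n) := by
    have hpos : 0 < 2 * n ^ 2 := by positivity
    apply Nat.le_of_mul_le_mul_left _ hpos
    calc 2 * n ^ 2 * (2 * bad.card) = (4 * n ^ 2) * bad.card := by ring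
      _ ≤ _ := h1
  have h3 : ((2 * n) ^ 2) ^ (2 * n) = (4 * n ^ 2) ^ (2 * n) := by
    congr 1; ring
  rw [h3]
  omega

end Pool.Agent.L7h35.TS
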