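import Pool.Agent.L7h66.TS.Stm

/-!
# Project TS: S_NUM, the numerical facts about the parameters
-/

set_option autoImplicit false

namespace Pool.Agent.L7h35.TS

open Finset
open Pool.Agent.L7h66.TS

/-- the binomial theorem as a bound of one coefficient -/
theorem choose_mul_pow_le (n b : ℕ) (x : ℝ) (hx : 0 ≤ x) :
    (n.choose b : ℝ) * x ^ b ≤ Real.exp (x * n) := by
  by_cases hb : b ≤ n
  · have h1 : (x + 1) ^ n = ∑ m ∈ range (n + 1), x ^ m * 1 ^ (n - m) * (n.choose m) :=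
      add_pow x 1 n
    have h2 : x ^ b * 1 ^ (n - b) * (n.choose b) ≤ (x + 1) ^ n := by
      rw [h1]
      exact Finset.single_le_sum (f := fun m => x ^ m * 1 ^ (n - m) * (n.choose m : ℝ))
        (fun m _ => by positivity) (by simp; omega)
    have h3 : (x + 1) ^ n ≤ Real.exp (x * n) := by
      calc (x + 1) ^ n ≤ (Real.exp x) ^ n :=
            pow_le_pow_left₀ (by positivity) (Real.add_one_le_exp x) n
        _ = Real.exp (x * n) := by rw [← Real.exp_nat_mul]; ring_nf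
    calc (n.choose b : ℝ) * x ^ b = x ^ b * 1 ^ (n - b) * (n.choose b) := by
          rw [one_pow]; ring
      _ ≤ _ := h2.trans h3
  · rw [Nat.choose_eq_zero_of_lt (by omega)]
    simp [Real.exp_nonneg]

theorem k_le_two_pow (k : ℕ) (hk : 1 ≤ k) : k ≤ 2 ^ (k - 1) := by
  have := Nat.lt_two_pow_self (n := k - 1)
  omega

/-- `(8/7)^{512} ≥ 2^{98}` -/
theorem eight_seven : (2 : ℝ) ^ 98 ≤ (8 / 7) ^ 512 := by
  have h1 : (29 / 10 : ℝ) ≤ (8 / 7) ^ 8 := by norm_num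
  have h2 : (2 : ℝ) ^ 98 ≤ (29 / 10) ^ 64 := by norm_num
  calc (2 : ℝ) ^ 98 ≤ (29 / 10) ^ 64 := h2
    _ ≤ ((8 / 7) ^ 8) ^ 64 := pow_le_pow_left₀ (by norm_num) h1 64
    _ = (8 / 7) ^ 512 := by rw [← pow_mul]

/-- `(8/7)^{λ} ≥ 2^{98 k²}` -/
theorem eight_seven_lam (k : ℕ) : (2 : ℝ) ^ (98 * k ^ 2) ≤ (8 / 7) ^ (lam k) := by
  unfold lam
  rw [pow_mul, pow_mul]
  exact pow_le_pow_left₀ (by positivity) eight_seven _

/-- the first numerical inequality, for one element: `16 e λ / θ ≤ (8/7)^λ`, with `e ≤ 4` -/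
theorem num_one (k : ℕ) (hk : 1 ≤ k) :
    64 * (lam k : ℝ) ≤ th k * (8 / 7) ^ (lam k) := by
  have hk0 : (0 : ℝ) < k := by exact_mod_cast hk
  have hlam : (lam k : ℝ) = 512 * (k : ℝ) ^ 2 := by unfold lam; push_cast; ring
  have hL : (LL k : ℝ) = 32 * k * (lam k : ℝ) ^ 2 := by unfold LL; push_cast; ring
  have hk2 : (k : ℝ) ≤ 2 ^ (k - 1) := by exact_mod_cast k_le_two_pow k hk
  have hlampos : (0 : ℝ) < lam k := by rw [hlam]; positivity
  have hLpos : (0 : ℝ) < LL k := by rw [hL]; positivity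
  -- th k = (k / L) / (256 L^2)^k
  have hth : th k = (k : ℝ) / LL k / (256 * (LL k : ℝ) ^ 2) ^ k := by
    unfold th
    rw [one_div, inv_pow]; rfl
  rw [hth, div_mul_eq_mul_div, le_div_iff₀ (by positivity), div_mul_eq_mul_div,
    le_div_iff₀ hLpos]
  -- 64 * lam * (256 L^2)^k * L ≤ k * (8/7)^lam
  have h256 : 256 * (LL k : ℝ) ^ 2 = 2 ^ 54 * (k : ℝ) ^ 10 := by
    rw [hL, hlam]; ring
  have e1 : 64 * (lam k : ℝ) * (256 * (LL k : ℝ) ^ 2) ^ k * LL k =
      2 ^ 38 * (k : ℝ) ^ 6 * (2 ^ 54 * (k : ℝ) ^ 10) ^ k * k := by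
    rw [h256, hL, hlam]; ring
  rw [e1, mul_comm (k : ℝ) ((8 / 7) ^ lam k)]
  apply mul_le_mul_of_nonneg_right _ hk0.le
  refine le_trans ?_ (eight_seven_lam k)
  -- bound with k ≤ 2^(k-1)
  have b1 : (k : ℝ) ^ 6 ≤ 2 ^ (6 * (k - 1)) := by
    calc (k : ℝ) ^ 6 ≤ (2 ^ (k - 1)) ^ 6 := pow_le_pow_left₀ hk0.le hk2 6
      _ = 2 ^ (6 * (k - 1)) := by rw [← pow_mul, mul_comm]
  have b2 : (k : ℝ) ^ 10 ≤ 2 ^ (10 * (k - 1)) := by
    calc (k : ℝ) ^ 10 ≤ (2 ^ (k - 1)) ^ 10 := pow_le_pow_left₀ hk0.le hk2 10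
      _ = 2 ^ (10 * (k - 1)) := by rw [← pow_mul, mul_comm]
  calc 2 ^ 38 * (k : ℝ) ^ 6 * (2 ^ 54 * (k : ℝ) ^ 10) ^ k
      ≤ 2 ^ 38 * 2 ^ (6 * (k - 1)) * (2 ^ 54 * 2 ^ (10 * (k - 1))) ^ k := by gcongr
    _ = 2 ^ (38 + 6 * (k - 1) + (54 + 10 * (k - 1)) * k) := by
        rw [← pow_add, ← pow_add, ← pow_mul, ← pow_add]
    _ ≤ 2 ^ (98 * k ^ 2) := by
        apply pow_le_pow_right₀ (by norm_num)
        obtain ⟨j, rfl⟩ : ∃ j, k = j + 1 := ⟨k - 1, by omega⟩
        simp only [Nat.add_sub_cancel]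
        nlinarith

theorem s_NUM : S_NUM := by
  intro k n hk hb
  have hk0 : (0 : ℝ) < k := by exact_mod_cast hk
  have hlam : (lam k : ℝ) = 512 * (k : ℝ) ^ 2 := by unfold lam; push_cast; ring
  have hlampos : (0 : ℝ) < lam k := by rw [hlam]; positivity
  have hlamN : 512 ≤ lam k := by unfold lam; nlinarith
  set b := bb k n with hbdef
  have hbpos : (0 : ℝ) < b := by exact_mod_cast hb
  have hL : (0 : ℝ) < LL k := by
    unfold LL; have := hlamN; positivity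
  have hth : 0 < th k := by unfold th; positivity
  constructor
  · -- y = th * n / (4 lam), b ≤ y < b + 1 ≤ 2 b
    have hy : th k * n / (4 * lam k) < 2 * b := by
      have h1 := Nat.lt_floor_add_one (th k * n / (4 * (lam k : ℝ)))
      have h2 : (b : ℝ) = (⌊th k * n / (4 * (lam k : ℝ))⌋₊ : ℝ) := rfl
      have h3 : (1 : ℝ) ≤ b := by exact_mod_cast hb
      rw [← h2] at h1
      linarith
    have hn0 : (0 : ℝ) < n := by
      rcases Nat.eq_zero_or_pos n with h | h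
      · exfalso
        rw [hbdef] at hb
        unfold bb at hb
        rw [h] at hb
        simp at hb
      · exact_mod_cast h
    have hy2 : th k * n < 8 * lam k * b := by
      rw [div_lt_iff₀ (by positivity)] at hy
      nlinarith
    -- binomial with x = b / n
    have h1 := choose_mul_pow_le n b (b / n) (by positivity)
    have h2 : (b : ℝ) / n * n = b := by field_simp
    rw [h2] at h1
    -- C(n,b) ≤ (4 n / b)^b
    have he : Real.exp b ≤ 4 ^ b := by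
      have : Real.exp (b : ℝ) = (Real.exp 1) ^ b := by
        rw [← Real.exp_nat_mul]; ring_nf
      rw [this]
      apply pow_le_pow_left₀ (Real.exp_nonneg _)
      have := Real.exp_one_lt_d9
      linarith
    have h3 : (n.choose b : ℝ) * (b / n) ^ b ≤ 4 ^ b := h1.trans he
    -- (7/8)^(lam b) C = ((7/8)^lam)^b C ; want ≤ (1/2)^b
    have h4 : (7 / 8 : ℝ) ^ (lam k) * 8 ≤ b / n := by
      have h5 := num_one k hk
      rw [le_div_iff₀ hn0]
      have h6 : (7 / 8 : ℝ) ^ (lam k) * (8 / 7) ^ (lam k) = 1 := by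
        rw [← mul_pow]; norm_num
      have h7 : 0 < (7 / 8 : ℝ) ^ (lam k) := by positivity
      have h8 : (7 / 8 : ℝ) ^ (lam k) * (64 * (lam k : ℝ)) ≤ th k := by
        calc (7 / 8 : ℝ) ^ (lam k) * (64 * (lam k : ℝ))
            ≤ (7 / 8 : ℝ) ^ (lam k) * (th k * (8 / 7) ^ (lam k)) := by gcongr
          _ = th k * ((7 / 8 : ℝ) ^ (lam k) * (8 / 7) ^ (lam k)) := by ring
          _ = th k := by rw [h6, mul_one]
      have h9 : (7 / 8 : ℝ) ^ (lam k) * (64 * (lam k : ℝ)) * n ≤ 8 * lam k * b := by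
        have := mul_le_mul_of_nonneg_right h8 hn0.le
        linarith
      have h10 : (7 / 8 : ℝ) ^ (lam k) * 8 * n * (8 * lam k) ≤ b * (8 * lam k) := by
        linarith
      exact le_of_mul_le_mul_right h10 (by positivity)
    have hc0 : (0 : ℝ) ≤ (n.choose b : ℝ) := by positivity
    have h11 : ((7 / 8 : ℝ) ^ (lam k) * 8) ^ b * (n.choose b) ≤ 4 ^ b := by
      calc ((7 / 8 : ℝ) ^ (lam k) * 8) ^ b * (n.choose b)
          ≤ (b / n) ^ b * (n.choose b) := by gcongr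
        _ ≤ 4 ^ b := by rw [mul_comm]; exact h3
    rw [mul_pow, ← pow_mul] at h11
    have h12 : (8 : ℝ) ^ b * (1 / 2) ^ b = 4 ^ b := by rw [← mul_pow]; norm_num
    have h13 : (0 : ℝ) < 8 ^ b := by positivity
    apply le_of_mul_le_mul_left _ h13
    calc (8 : ℝ) ^ b * ((7 / 8) ^ (lam k * b) * (n.choose b))
        = (7 / 8) ^ (lam k * b) * 8 ^ b * (n.choose b) := by ring
      _ ≤ 4 ^ b := h11
      _ = 8 ^ b * (1 / 2) ^ b := h12.symm
  · set d := b / lam k with hd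
    have hdl : d * lam k ≤ b := Nat.div_mul_le_self b (lam k)
    have hsym : (lam k * b + d).choose (lam k * b) = (lam k * b + d).choose d := by
      rw [← Nat.choose_symm_add]
    rw [hsym]
    have h1 := choose_mul_pow_le (lam k * b + d) d (1 / (lam k : ℝ) ^ 2) (by positivity)
    -- the exponent is at most b / 2
    have hdR : (d : ℝ) * lam k ≤ b := by exact_mod_cast hdl
    have hl1 : (512 : ℝ) ≤ lam k := by exact_mod_cast hlamN
    have h2 : 1 / (lam k : ℝ) ^ 2 * ((lam k * b + d : ℕ) : ℝ) ≤ b * (1 / 2) := by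
      push_cast
      rw [div_mul_eq_mul_div, div_le_iff₀ (by positivity), one_mul]
      have h3 : (d : ℝ) ≤ b := by nlinarith
      have h4 : (lam k : ℝ) + 1 ≤ 1 / 2 * (lam k : ℝ) ^ 2 := by nlinarith
      have h5 := mul_le_mul_of_nonneg_left h4 hbpos.le
      linarith
    have h3 : Real.exp (1 / (lam k : ℝ) ^ 2 * ((lam k * b + d : ℕ) : ℝ)) ≤ 2 ^ b := by
      refine (Real.exp_le_exp.2 h2).trans ?_
      rw [Real.exp_nat_mul]
      apply pow_le_pow_left₀ (Real.exp_nonneg _)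
      have h4 : Real.exp (1 / 2) ^ 2 = Real.exp 1 := by
        rw [← Real.exp_nat_mul]; norm_num
      have := Real.exp_one_lt_d9
      have h5 : 0 < Real.exp (1 / 2) := Real.exp_pos _
      nlinarith
    -- (lam^2)^d ≤ 2^b
    have h6 : ((lam k : ℝ) ^ 2) ^ d ≤ 2 ^ b := by
      obtain ⟨μ, hμ⟩ : ∃ μ, lam k = 2 * μ := ⟨256 * k ^ 2, by unfold lam; ring⟩
      have hμ1 : 1 ≤ μ := by omega
      have h7 : μ ≤ 2 ^ (μ - 1) := k_le_two_pow μ hμ1
      have h8 : lam k ≤ 2 ^ μ := by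
        rw [hμ]
        calc 2 * μ ≤ 2 * 2 ^ (μ - 1) := Nat.mul_le_mul_left _ h7
          _ = 2 ^ μ := by rw [← pow_succ']; congr 1; omega
      have h9 : (lam k) ^ 2 ≤ 2 ^ (lam k) := by
        calc (lam k) ^ 2 ≤ (2 ^ μ) ^ 2 := Nat.pow_le_pow_left h8 2
          _ = 2 ^ (lam k) := by rw [← pow_mul, hμ, mul_comm]
      have h10 : ((lam k) ^ 2) ^ d ≤ 2 ^ b := by
        calc ((lam k) ^ 2) ^ d ≤ (2 ^ (lam k)) ^ d := Nat.pow_le_pow_left h9 d
          _ = 2 ^ (lam k * d) := by rw [← pow_mul]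
          _ ≤ 2 ^ b := Nat.pow_le_pow_right (by norm_num) (by rw [mul_comm]; exact hdl)
      exact_mod_cast h10
    have h7 : ((lam k * b + d).choose d : ℝ) ≤ 4 ^ b := by
      have h8 : ((lam k * b + d).choose d : ℝ) =
          ((lam k * b + d).choose d : ℝ) * (1 / (lam k : ℝ) ^ 2) ^ d * ((lam k : ℝ) ^ 2) ^ d := by
        rw [mul_assoc, ← mul_pow, one_div, inv_mul_cancel₀ (by positivity), one_pow, mul_one]
      rw [h8]
      calc ((lam k * b + d).choose d : ℝ) * (1 / (lam k : ℝ) ^ 2) ^ d * ((lam k : ℝ) ^ 2) ^ d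
          ≤ 2 ^ b * 2 ^ b := by
            apply mul_le_mul (h1.trans h3) h6 (by positivity) (by positivity)
        _ = 4 ^ b := by rw [← mul_pow]; norm_num
    calc (1 / 8 : ℝ) ^ b * ((lam k * b + d).choose d : ℝ) ≤ (1 / 8) ^ b * 4 ^ b := by gcongr
      _ = (1 / 2) ^ b := by rw [← mul_pow]; norm_num

end Pool.Agent.L7h35.TS
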